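import Mathlib

set_option autoImplicit false

namespace Pool.Agent.Results.MP_d5f0e7_al.Formula

/-- The numerical monoid `Γ_{n,k} = ⟨n, n+1, …, n+k⟩`. -/
def Gamma (n k : ℕ) : AddSubmonoid ℕ := AddSubmonoid.closure (Set.Icc n (n + k))

/-- `x ∣_Γ y`: the difference `y - x` lies in `Γ`. -/
def Dvd (Γ : AddSubmonoid ℕ) (x y : ℕ) : Prop := ∃ z ∈ Γ, y = x + z

/-- The set of `m` such that whenever `x ∣_Γ a_1 + ⋯ + a_r` with all `a_j ∈ Γ`, already `x ∣_Γ`
the sum of at most `m` of the `a_j`. The value `ω(x)` is its least element. -/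
def Bounds (Γ : AddSubmonoid ℕ) (x : ℕ) : Set ℕ :=
  {m | ∀ (r : ℕ) (a : Fin r → ℕ), (∀ j, a j ∈ Γ) → Dvd Γ x (∑ j, a j) →
    ∃ T : Finset (Fin r), T.card ≤ m ∧ Dvd Γ x (∑ j ∈ T, a j)}

/-- The formula for `ω(n + i)` in `Γ_{n,k}`, with `J = ⌊(n-2)/k⌋`. -/
def formula (n k i : ℕ) : ℕ :=
  if k ∣ n - 2 then
    (if i = 0 then (if (n - 2) / k + 1 ∣ k - 1 then (n - 2) / k + 2 else (n - 2) / k + 1)
      else (if (n - 2) / k + 2 ∣ i - 1 then (n - 2) / k + 3 else (n - 2) / k + 2))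
  else (if i = 0 then (n - 2) / k + 2 else (n - 2) / k + 3)

theorem mem_iff (n k y : ℕ) : y ∈ Gamma n k ↔ ∃ j, j * n ≤ y ∧ y ≤ j * n + j * k := by
  constructor
  · intro h
    induction h using AddSubmonoid.closure_induction with
    | mem x hx => exact ⟨1, by simpa using hx⟩
    | zero => exact ⟨0, by simp⟩
    | add x y _ _ h1 h2 =>
      obtain ⟨a, h1, h1'⟩ := h1
      obtain ⟨b, h2, h2'⟩ := h2
      exact ⟨a + b, by rw [add_mul]; omega, by rw [add_mul, add_mul]; omega⟩
  · rintro ⟨j, h1, h2⟩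
    induction j generalizing y with
    | zero => obtain rfl : y = 0 := by omega
              exact zero_mem _
    | succ j ih =>
      rw [add_mul, one_mul] at h1
      rw [add_mul, add_mul, one_mul, one_mul] at h2
      by_cases h : y ≤ j * n + n + j * k
      · rw [show y = (y - n) + n by omega]
        exact add_mem (ih _ (by omega) (by omega)) (AddSubmonoid.subset_closure (by simp))
      · rw [show y = (j * n + j * k) + (y - (j * n + j * k)) by omega]
        exact add_mem (ih _ (by omega) (by omega))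
          (AddSubmonoid.subset_closure ⟨by omega, by omega⟩)

theorem gap {n k y : ℕ} (j : ℕ) (h1 : j * n + j * k < y) (h2 : y < j * n + n) : y ∉ Gamma n k := by
  rw [mem_iff]
  rintro ⟨l, h3, h4⟩
  rcases le_or_gt l j with h | h
  · have := Nat.mul_le_mul_right n h
    have := Nat.mul_le_mul_right k h
    omega
  · have := Nat.mul_le_mul_right n (Nat.succ_le_of_lt h)
    rw [Nat.succ_mul] at this
    omega

theorem big {n k y J : ℕ} (hn : 2 ≤ n) (hJ : n - 1 ≤ J * k + k) (h : J * n + n ≤ y) :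
    y ∈ Gamma n k := by
  rw [mem_iff]
  have h1 : J + 1 ≤ y / n := (Nat.le_div_iff_mul_le (by omega)).2 (by rw [add_mul]; omega)
  have h2 := Nat.mul_le_mul_right k h1
  rw [add_mul] at h2
  have h3 := Nat.div_add_mod' y n
  have h4 := Nat.mod_lt y (show 0 < n by omega)
  exact ⟨y / n, by omega, by omega⟩

theorem upper {Γ : AddSubmonoid ℕ} {x w n : ℕ} (hn : ∀ a ∈ Γ, a ≠ 0 → n ≤ a)
    (H : ∀ m, w ≤ m → ∀ (ι : Type) (T : Finset ι) (a : ι → ℕ), T.card = m + 1 →
      (∀ j ∈ T, ∃ t, m * n ≤ t ∧ t + a j = ∑ l ∈ T, a l ∧ ¬ Dvd Γ x t) → False) :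
    w ∈ Bounds Γ x := by
  classical
  intro r a ha h
  have hex : ∃ m, ∃ T : Finset (Fin r), T.card = m ∧ Dvd Γ x (∑ j ∈ T, a j) := ⟨_, _, rfl, h⟩
  obtain ⟨T, hT, hd⟩ := Nat.find_spec hex
  refine ⟨T, ?_, hd⟩
  by_contra hc
  have hmin : ∀ j ∈ T, ¬ Dvd Γ x (∑ l ∈ T.erase j, a l) := fun j hj h' => by
    have := Nat.find_min' hex ⟨_, rfl, h'⟩
    rw [Finset.card_erase_of_mem hj] at this
    omega
  have hge : ∀ j ∈ T, n ≤ a j := fun j hj => hn _ (ha j) fun h0 => hmin j hj (by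
    rwa [← Finset.sum_erase_add _ _ hj, h0, add_zero] at hd)
  refine H (T.card - 1) (by omega) _ T a (by omega) fun j hj =>
    ⟨_, ?_, Finset.sum_erase_add _ _ hj, hmin j hj⟩
  have := Finset.card_nsmul_le_sum (T.erase j) a n fun l hl => hge l (Finset.mem_of_mem_erase hl)
  rwa [Finset.card_erase_of_mem hj, smul_eq_mul] at this

theorem equal {ι : Type} {T : Finset ι} {a : ι → ℕ} {m t : ℕ} (hT : T.card = m + 1)
    (h : ∀ j ∈ T, t + a j = ∑ l ∈ T, a l) : m ∣ t := by
  obtain ⟨j, hj⟩ := Finset.card_pos.1 (show 0 < T.card by omega)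
  have h1 : ∑ l ∈ T, a l = ∑ _l ∈ T, a j :=
    Finset.sum_congr rfl fun l hl => by have := h l hl; have := h j hj; omega
  rw [Finset.sum_const, hT, smul_eq_mul, add_mul] at h1
  exact ⟨a j, by have := h j hj; omega⟩

theorem lower {Γ : AddSubmonoid ℕ} {x m : ℕ} (a : Fin (m + 1) → ℕ) (ha : ∀ j, a j ∈ Γ)
    (h1 : Dvd Γ x (∑ j, a j)) (h2 : ∀ j t, t + a j = ∑ l, a l → ¬ Dvd Γ x t) :
    m + 1 ∈ lowerBounds (Bounds Γ x) := by
  classical
  intro w hw
  obtain ⟨T, hT, z, hz, hd⟩ := hw _ a ha h1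
  by_contra hc
  obtain ⟨j, hj⟩ : ∃ j, j ∉ T := by
    by_contra h
    push Not at h
    rw [Finset.eq_univ_of_forall h, Finset.card_univ, Fintype.card_fin] at hT
    omega
  have hs : T ⊆ Finset.univ.erase j := fun l hl => by
    simp only [Finset.mem_erase, Finset.mem_univ, and_true]
    rintro rfl; exact hj hl
  refine h2 j _ (Finset.sum_erase_add _ _ (Finset.mem_univ j))
    ⟨∑ l ∈ Finset.univ.erase j \ T, a l + z, add_mem (sum_mem fun l _ => ha l) hz, ?_⟩
  rw [← Finset.sum_sdiff hs, hd]; omega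

theorem spread (m τ : ℕ) (hm : 0 < m) : ∃ e : Fin (m + 1) → ℕ, ∀ j, e j ≤ τ ∧
    ∑ l, e l ≤ τ + e j ∧ τ + e j ≤ ∑ l, e l + 1 ∧ (m ∣ τ → τ + e j = ∑ l, e l) := by
  have hd := Nat.mod_lt τ hm
  have hs : ∑ l : Fin (m + 1), (τ / m + if l.1 < τ % m then 1 else 0) = τ + τ / m := by
    rw [Finset.sum_add_distrib, Finset.sum_const, Finset.card_univ, Fintype.card_fin,
      Fin.sum_univ_eq_sum_range (fun l => if l < τ % m then 1 else 0), Finset.sum_boole]
    have : (Finset.range (m + 1)).filter (fun l => l < τ % m) = Finset.range (τ % m) := by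
      ext l; simp; omega
    rw [this, Finset.card_range, smul_eq_mul, add_mul]
    have := Nat.div_add_mod τ m
    simp only [Nat.cast_id]
    omega
  refine ⟨fun l => τ / m + if l.1 < τ % m then 1 else 0, fun j => ?_⟩
  simp only [hs]
  have h1 := Nat.div_add_mod τ m
  have h2 : τ / m ≤ m * (τ / m) := Nat.le_mul_of_pos_left _ hm
  refine ⟨by split_ifs <;> omega, by split_ifs <;> omega, by split_ifs <;> omega, fun h => ?_⟩
  rw [Nat.mod_eq_zero_of_dvd h]; simp

theorem result (n k i : ℕ) (hn : 2 ≤ n) (hk : 1 ≤ k) (hkn : k ≤ n - 1) (hi : i ≤ k) :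
    IsLeast (Bounds (Gamma n k) (n + i)) (formula n k i) := by
  obtain ⟨J, hJ⟩ : ∃ J, J = (n - 2) / k := ⟨_, rfl⟩
  have h1 := Nat.div_add_mod' (n - 2) k
  have h2 := Nat.mod_lt (n - 2) (show 0 < k by omega)
  rw [← hJ] at h1
  have hdv : k ∣ n - 2 ↔ J * k = n - 2 := by
    rw [Nat.dvd_iff_mod_eq_zero]; omega
  have hb : ∀ y, J * n + n ≤ y → y ∈ Gamma n k := fun y => big hn (by omega)
  have hb' : J * k = n - 2 → ∀ y, J * n ≤ y → y + 1 ≠ J * n + n → y ∈ Gamma n k := by
    intro h y h3 h4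
    by_cases h5 : J * n + n ≤ y
    · exact hb y h5
    · exact (mem_iff _ _ _).2 ⟨J, h3, by omega⟩
  have hgen : ∀ y, n ≤ y → y ≤ n + k → y ∈ Gamma n k := fun y h3 h4 =>
    AddSubmonoid.subset_closure ⟨h3, h4⟩
  have hpos : ∀ a ∈ Gamma n k, a ≠ 0 → n ≤ a := fun a ha h0 => by
    by_contra h; exact gap 0 (by omega) (by omega) ha
  have hD : ∀ t, n + i ≤ t → t - (n + i) ∈ Gamma n k → Dvd (Gamma n k) (n + i) t :=
    fun t h3 h4 => ⟨_, h4, by omega⟩
  have hN : ∀ t j, j * n + j * k + (n + i) < t → t < j * n + n + (n + i) →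
      ¬ Dvd (Gamma n k) (n + i) t := by
    rintro t j h3 h4 ⟨z, hz, rfl⟩
    exact gap j (by omega) (by omega) hz
  have U : ∀ w, (∀ m t, w ≤ m → m * n ≤ t → Dvd (Gamma n k) (n + i) t ∨
      ∃ t₀, ¬ m ∣ t₀ ∧ ∀ t, m * n ≤ t → ¬ Dvd (Gamma n k) (n + i) t → t = t₀) →
      w ∈ Bounds (Gamma n k) (n + i) := by
    intro w H
    refine upper hpos fun m hm ι T a hT h => ?_
    obtain ⟨j, hj⟩ := Finset.card_pos.1 (show 0 < T.card by omega)
    obtain ⟨t, h3, -, h4⟩ := h j hj
    obtain ⟨t₀, h5, h6⟩ := (H m t hm h3).resolve_left h4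
    refine h5 (equal hT (a := a) fun l hl => ?_)
    obtain ⟨t', h7, h8, h9⟩ := h l hl
    rw [← h6 t' h7 h9, h8]
  have mono : ∀ c m t, J + c ≤ m → m * n ≤ t → J * n + c * n ≤ t := fun c m t h3 h4 => by
    rw [← add_mul]; exact (Nat.mul_le_mul_right n h3).trans h4
  have U3 : J + 3 ∈ Bounds (Gamma n k) (n + i) := U _ fun m t h3 h4 => by
    have := mono 3 m t h3 h4
    exact Or.inl (hD t (by omega) (hb _ (by omega)))
  have U2 : i = 0 → J + 2 ∈ Bounds (Gamma n k) (n + i) := fun h0 => U _ fun m t h3 h4 => by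
    have := mono 2 m t h3 h4
    exact Or.inl (hD t (by omega) (hb _ (by omega)))
  have L3 : i ≠ 0 → (J * k ≠ n - 2 ∨ J + 2 ∣ i - 1) →
      J + 3 ∈ lowerBounds (Bounds (Gamma n k) (n + i)) := by
    intro h0 h3
    obtain ⟨e, he⟩ := spread (J + 2) (i - 1) (by omega)
    have hs : ∑ l, (n + e l) = J * n + 3 * n + ∑ l, e l := by
      rw [Finset.sum_add_distrib]; simp; ring
    refine lower (fun l => n + e l) (fun j => hgen _ (by omega) (by have := (he j).1; omega))
      (hD _ (by omega) (hb _ (by omega))) fun j t ht => ?_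
    obtain ⟨-, h4, h5, h6⟩ := he j
    rw [hs] at ht
    rcases h3 with h3 | h3
    · exact hN t J (by omega) (by omega)
    · have := h6 h3
      exact hN t J (by omega) (by omega)
  have L2 : i = 0 → (J * k ≠ n - 2 ∨ J + 1 ∣ k - 1) →
      J + 2 ∈ lowerBounds (Bounds (Gamma n k) (n + i)) := by
    intro h0 h3
    obtain ⟨e, he⟩ := spread (J + 1) (k - 1) (by omega)
    have hs : ∑ l, (n + k - e l) + ∑ l, e l = J * n + J * k + 2 * n + 2 * k := by
      rw [← Finset.sum_add_distrib, Finset.sum_congr rfl fun l _ =>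
        (show n + k - e l + e l = n + k by have := (he l).1; omega)]
      simp; ring
    have := he 0
    refine lower (fun l => n + k - e l)
      (fun j => hgen _ (by have := (he j).1; omega) (by omega))
      (hD _ (by omega) (hb _ (by omega))) fun j t ht => ?_
    obtain ⟨h7, h4, h5, h6⟩ := he j
    rcases h3 with h3 | h3
    · exact hN t J (by omega) (by omega)
    · have := h6 h3
      exact hN t J (by omega) (by omega)
  simp only [formula, ← hJ, hdv]
  split_ifs with c1 c2 c3 c4 c5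
  · exact ⟨U2 c2, L2 c2 (Or.inr c3)⟩
  · obtain ⟨K, rfl⟩ : ∃ K, J = K + 1 := ⟨J - 1, by
      rcases J with _ | J
      · simp at c3
      · simp⟩
    have hk2 : 2 ≤ k := by
      by_contra h; exact c3 (by rw [show k - 1 = 0 by omega]; simp)
    refine ⟨U _ fun m t h3 h4 => ?_, ?_⟩
    · rcases h3.eq_or_lt with rfl | h5
      · refine Or.inr ⟨(K + 1) * n + 2 * n - 1, fun h6 => c3 ?_, fun t h6 h7 => ?_⟩
        · have h7 : (K + 1 + 1) * (n + k) = ((K + 1) * n + 2 * n - 1) + (k - 1) := by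
            have : (K + 1 + 1) * (n + k) = (K + 1) * n + (K + 1) * k + n + k := by ring
            omega
          exact (Nat.dvd_add_right h6).1 (h7 ▸ Dvd.intro _ rfl)
        · by_contra h8
          have := mono 1 _ t le_rfl h6
          exact h7 (hD t (by omega) (hb' c1 _ (by omega) (by omega)))
      · have := mono 2 m t h5 h4
        exact Or.inl (hD t (by omega) (hb _ (by omega)))
    · have hs : ∑ _l : Fin (K + 1 + 1), (n + k) = K * n + K * k + 2 * n + 2 * k := by
        simp; ring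
      rw [add_mul] at c1
      refine lower (fun _ => n + k) (fun j => hgen _ (by omega) (by omega))
        (hD _ (by omega) (hb _ (by rw [add_mul]; omega))) fun j t ht => ?_
      exact hN t K (by omega) (by omega)
  · exact ⟨U3, L3 c2 (Or.inr c4)⟩
  · have hi2 : 2 ≤ i := by
      by_contra h; exact c4 (by rw [show i - 1 = 0 by omega]; simp)
    obtain ⟨K, rfl⟩ : ∃ K, J = K + 1 := ⟨J - 1, by
      rcases J with _ | J
      · omega
      · simp⟩
    refine ⟨U _ fun m t h3 h4 => ?_, ?_⟩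
    · rcases h3.eq_or_lt with rfl | h5
      · refine Or.inr ⟨(K + 1 + 2) * n + (i - 1), fun h6 => c4 ?_, fun t h6 h7 => ?_⟩
        · exact (Nat.dvd_add_right (Dvd.intro _ rfl)).1 h6
        · by_contra h8
          have := mono 2 _ t le_rfl h6
          rw [add_mul] at h8
          exact h7 (hD t (by omega) (hb' c1 _ (by omega) (by omega)))
      · have := mono 3 m t h5 h4
        exact Or.inl (hD t (by omega) (hb _ (by omega)))
    · have hs : ∑ _l : Fin (K + 1 + 1 + 1), n = K * n + 3 * n := by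
        simp; ring
      refine lower (m := K + 1 + 1) (fun _ => n) (fun j => hgen _ (by omega) (by omega))
        (hD _ (by omega) (hb' c1 _ (by rw [add_mul]; omega) (by rw [add_mul]; omega)))
        fun j t ht => ?_
      rw [add_mul] at c1
      exact hN t K (by omega) (by omega)
  · exact ⟨U2 c5, L2 c5 (Or.inl c1)⟩
  · exact ⟨U3, L3 c5 (Or.inl c1)⟩

end Pool.Agent.Results.MP_d5f0e7_al.Formula
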